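import Mathlib
import Pool.Agent.H16.Cea3

set_option autoImplicit false

namespace Pool.Agent.Results.MP_aec1d5_lc.Yes

open Pool.Agent.H16.Cea

theorem result : ∃ (σ : Sig) (L : Laws σ), LawsCE L ∧
    ∀ n : ℕ, 1 ≤ n → ¬ ACC L n ∧ ¬ S3Complete (Iso L n) :=
  ⟨sInf', ∅, lawsCE_empty _, fun n _ => ⟨not_acc n, not_complete n⟩⟩

end Pool.Agent.Results.MP_aec1d5_lc.Yes
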